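import Pool.Agent.W8.KU.Stm

/-!
Project KU: the area of three disjoint spheres.
-/

set_option autoImplicit false

open scoped Topology ContDiff ENNReal
open MeasureTheory Metric

namespace Pool.Agent.W287.KU

open Pool.Agent.W8.KU

theorem norm_P0 : ‖P0‖ = 20 := by
  unfold P0
  rw [EuclideanSpace.norm_single]
  norm_num

theorem Are_proof : Are := by
  intro hRad hsc hfin t ht
  have ht1 : |t| < 1 := lt_trans ht (by norm_num)
  obtain ⟨-, -, -, ha, hb, hc, hA, hB, hC, -⟩ := hRad.2 t ht1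
  have hA' := abs_le.1 (hA.trans ht.le)
  have hB' := abs_le.1 (hB.trans ht.le)
  have hC' := abs_le.1 (hC.trans ht.le)
  have hd1 : ∀ r : ℝ, r < 10 → Disjoint (sphere P0 (ra t)) (sphere (0 : E3) r) := by
    intro r hr
    rw [Set.disjoint_left]
    intro x hx hx'
    rw [mem_sphere, dist_eq_norm] at hx
    rw [mem_sphere_zero_iff_norm] at hx'
    have h1 : ‖P0‖ ≤ ‖x‖ + ‖x - P0‖ := by
      have := norm_sub_le x (x - P0)
      rwa [sub_sub_cancel] at this
    rw [norm_P0] at h1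
    linarith [hA'.2]
  have hd2 : Disjoint (sphere (0 : E3) (rc t)) (sphere (0 : E3) (rb t)) := by
    rw [Set.disjoint_left]
    intro x hx hx'
    rw [mem_sphere_zero_iff_norm] at hx hx'
    linarith [hB'.1, hC'.2]
  have hm : ∀ (z : E3) (r : ℝ), MeasurableSet (sphere z r) := fun z r =>
    isClosed_sphere.measurableSet
  have hd3 : Disjoint (sphere P0 (ra t)) (sphere (0 : E3) (rc t) ∪ sphere 0 (rb t)) :=
    Disjoint.union_right (hd1 _ (by linarith [hC'.2])) (hd1 _ (by linarith [hB'.2]))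
  rw [measure_union hd3 ((hm _ _).union (hm _ _)), measure_union hd2 (hm _ _),
    hsc P0 (ra t) ha, hsc 0 (rb t) hb, hsc 0 (rc t) hc]
  have hf : ∀ r : ℝ, ENNReal.ofReal (r ^ 2) * Measure.hausdorffMeasure 2 (sphere (0 : E3) 1) ≠ ⊤ :=
    fun r => ENNReal.mul_ne_top ENNReal.ofReal_ne_top (ne_of_lt hfin)
  rw [ENNReal.toReal_add (hf _) (ENNReal.add_ne_top.2 ⟨hf _, hf _⟩), ENNReal.toReal_add (hf _) (hf _),
    ENNReal.toReal_mul, ENNReal.toReal_mul, ENNReal.toReal_mul, ENNReal.toReal_ofReal (sq_nonneg _),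
    ENNReal.toReal_ofReal (sq_nonneg _), ENNReal.toReal_ofReal (sq_nonneg _)]
  ring

end Pool.Agent.W287.KU
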